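import Pool.Agent.Y229.PG.Stab
import Pool.Agent.W578.SI.Scale
import Pool.Agent.Y229.PS.Gen

set_option autoImplicit false

/-! Polynomials which become generic after the addition of `∑ y_i z_i`: the global strong monodromy
conjecture. -/

namespace Pool.Agent.Y229.PG

open MvPolynomial
open Pool.Agent.H628R4.TP
open Pool.Agent.W578.SI (cj cj_def cj_mem b_transfer)
open Pool.Agent.Y229.RE
open Pool.Agent.Y229.PS (tup hG sparse_hG unstab_poly exists_factor forall_split sum_exR map_yv)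
open Pool.Agent.W425.SM (sparse SmoothFan Principal)
open Pool.Agent.W422.GC (topZetaG)
open Pool.Agent.W749.JI (fam)
open Pool.Agent.W425.MM (NonD we wc)

variable {N M k r : ℕ}

/-- conjugation by an automorphism preserves the Weyl algebra -/
theorem cj_all (φ : MvPolynomial (Fin M) ℂ ≃ₐ[ℂ] MvPolynomial (Fin M) ℂ) :
    ∀ Q ∈ weylS (Fin M), cj φ Q ∈ weylS (Fin M) := by
  refine cj_mem φ (fun i => Pool.Agent.Y229.RE.mul_mem _) fun i => ?_
  have h1 : cj φ ((pderiv i : Derivation ℂ (MvPolynomial (Fin M) ℂ)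
      (MvPolynomial (Fin M) ℂ)) : MvPolynomial (Fin M) ℂ →ₗ[ℂ] MvPolynomial (Fin M) ℂ) =
      ∑ j, LinearMap.mulLeft ℂ (φ (pderiv i (φ.symm (X j)))) *
        ((pderiv j : Derivation ℂ (MvPolynomial (Fin M) ℂ)
      (MvPolynomial (Fin M) ℂ)) : MvPolynomial (Fin M) ℂ →ₗ[ℂ] MvPolynomial (Fin M) ℂ) := by
    refine LinearMap.ext fun g => ?_
    rw [cj_def, LinearMap.sum_apply]
    show φ (pderiv i (φ.symm g)) = ∑ j, φ (pderiv i (φ.symm (X j))) * pderiv j g
    induction g using MvPolynomial.induction_on with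
    | C c =>
      rw [show φ.symm (C c : MvPolynomial (Fin M) ℂ) = C c from φ.symm.commutes c, pderiv_C,
        map_zero]
      exact (Finset.sum_eq_zero fun j _ => by rw [pderiv_C, mul_zero]).symm
    | add p q hp hq =>
      rw [map_add, map_add, map_add, hp, hq, ← Finset.sum_add_distrib]
      refine Finset.sum_congr rfl fun j _ => ?_
      rw [map_add, mul_add]
    | mul_X p j0 hp =>
      classical
      rw [map_mul, Derivation.leibniz, smul_eq_mul, smul_eq_mul, map_add, map_mul, map_mul, hp,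
        AlgEquiv.apply_symm_apply, AlgEquiv.apply_symm_apply]
      have h2 : ∀ j, φ (pderiv i (φ.symm (X j))) * pderiv j (p * X j0) =
          (if j = j0 then p * φ (pderiv i (φ.symm (X j0))) else 0) +
            X j0 * (φ (pderiv i (φ.symm (X j))) * pderiv j p) := by
        intro j
        rw [Derivation.leibniz, smul_eq_mul, smul_eq_mul]
        by_cases h3 : j = j0
        · subst h3
          rw [pderiv_X_self, if_pos rfl]
          ring
        · rw [pderiv_X_of_ne (Ne.symm h3), if_neg h3]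
          ring
      rw [Finset.sum_congr rfl fun j _ => h2 j, Finset.sum_add_distrib, Finset.sum_ite_eq' _ j0,
        if_pos (Finset.mem_univ _), Finset.mul_sum]
  rw [h1]
  exact Subalgebra.sum_mem _ fun j _ =>
    Subalgebra.mul_mem _ (Pool.Agent.Y229.RE.mul_mem _) (pd_mem j)

/-- `f + ∑ y_i z_i` becomes `G` by an automorphism of the polynomial ring. -/
def BecomesG (f : MvPolynomial (Fin N) ℂ) (k : ℕ) (G : MvPolynomial (Fin (N + (k + k))) ℂ) :
    Prop :=
  ∃ φ : MvPolynomial (Fin (N + (k + k))) ℂ ≃ₐ[ℂ] MvPolynomial (Fin (N + (k + k))) ℂ,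
    φ (stab f k) = G

/-- **The functional equation of `G`.** -/
theorem becomes_global {f : MvPolynomial (Fin N) ℂ} (hf : f.totalDegree ≠ 0) {b : Polynomial ℂ}
    (hb : IsBFunction f b) {k : ℕ} {G : MvPolynomial (Fin (N + (k + k))) ℂ}
    (hG : BecomesG f k G) :
    b.eval (-1) = 0 ∧ ∀ c : Polynomial ℂ, b = (Polynomial.X + 1) * c →
      IsBFunction G ((Polynomial.X + 1) * c.comp (Polynomial.X + Polynomial.C (k : ℂ))) := by
  obtain ⟨h1, h2⟩ := reduced hf (formal_iff.1 hb)
  refine ⟨h1, fun c hc => ?_⟩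
  obtain ⟨φ, rfl⟩ := hG
  have h3 := b_transfer φ (cj_all φ) 1 one_ne_zero _ _
    (formal_iff.2 (unreduced (red_stab sep_stab f c (h2 c hc))))
  rw [C_1, one_mul] at h3
  exact h3

/-- **Generic coefficients.** -/
theorem strongG (hr : 1 ≤ r) (F : Subfield ℂ) (v : Fin r → Fin (N + (k + k)) → ℕ)
    (hv : Function.Injective v) (hv0 : ∀ j, v j ≠ 0)
    (h : MvPolynomial (Fin (N + (k + k))) F) (hh : ∀ w ∈ h.support, Pool.Agent.W425.SV.Hull v w) :
    ∃ g : MvPolynomial (Fin r) F, g ≠ 0 ∧ ∀ a : Fin r → ℂ, MvPolynomial.aeval a g ≠ 0 →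
      NonD (Fin.append v (we h)) (Fin.append a (fun l => algebraMap F ℂ (wc h l))) ∧
      ∀ f : MvPolynomial (Fin N) ℂ, f.totalDegree ≠ 0 →
        BecomesG f k (sparse v a + MvPolynomial.map (algebraMap F ℂ) h) →
      ∀ b : Polynomial ℂ, IsBFunction f b → ∀ R : SmoothFan (N + (k + k)), Principal v R →
        ∃ P : Polynomial ℂ, algebraMap (Polynomial ℂ) (RatFunc ℂ)
          (b * (Polynomial.X - Polynomial.C (k : ℂ))) *
          unstab k 1 (topZetaG v R) = algebraMap (Polynomial ℂ) (RatFunc ℂ) P := by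
  obtain ⟨g, hg0, hg⟩ := Pool.Agent.W425.GN.gen_top hr v hv hv0 h hh
  refine ⟨g, hg0, fun a ha => ⟨(hg a ha).1, fun f hf hB b hb R hR => ?_⟩⟩
  obtain ⟨hb1, h1⟩ := becomes_global hf hb hB
  obtain ⟨c, rfl⟩ := exists_factor hb1
  obtain ⟨P, hP⟩ := (hg a ha).2 _ (h1 c rfl) R hR
  exact unstab_poly hP

/-! ### Compositions -/

/-- The exponent `w` lies in the convex hull of the `m j` with `π j = i`. -/
def HullT {n : ℕ} (π : Fin r → Fin (k + 1)) (m : Fin r → Fin n → ℕ) (i : Fin (k + 1))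
    (w : Fin n →₀ ℕ) : Prop :=
  ∃ l : Fin r → ℝ, (∀ j, 0 ≤ l j) ∧ ∑ j, l j = 1 ∧ (∀ j, l j ≠ 0 → π j = i) ∧
    ∀ x, ∑ j, l j * (m j x : ℝ) = (w x : ℝ)

lemma hull_hG {F : Subfield ℂ} (π : Fin r → Fin (k + 1)) (m : Fin r → Fin (N + k) → ℕ)
    (H : Fin (k + 1) → MvPolynomial (Fin (N + k)) F)
    (hH : ∀ i, ∀ w ∈ (H i).support, HullT π m i w) :
    ∀ w ∈ (hG H).support, Pool.Agent.W425.SV.Hull (ex π m) w := by
  classical
  intro w hw
  unfold hG at hw
  rcases Finset.mem_union.1 (MvPolynomial.support_add hw) with h1 | h1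
  · rw [support_rename_of_injective emb_inj, Finset.mem_image] at h1
    obtain ⟨w', h2, rfl⟩ := h1
    obtain ⟨l, h3, h4, h5, h6⟩ := hH 0 w' h2
    refine ⟨l, h3, h4, forall_split (fun i => ?_) fun i => ?_⟩
    · rw [sum_exR, Finsupp.mapDomain_apply emb_inj]
      exact h6 i
    · rw [map_yv, Nat.cast_zero]
      refine Finset.sum_eq_zero fun j _ => ?_
      by_cases h7 : l j = 0
      · rw [h7, zero_mul]
      · rw [ex_y, if_neg, Nat.cast_zero, mul_zero]
        rw [h5 j h7]
        exact (Fin.succ_ne_zero i).symm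
  · have h2 := MvPolynomial.support_sum h1
    rw [Finset.mem_biUnion] at h2
    obtain ⟨i0, -, h3⟩ := h2
    rw [mul_comm, MvPolynomial.support_mul_X, Finset.mem_map] at h3
    obtain ⟨w1, h4, rfl⟩ := h3
    rw [support_rename_of_injective emb_inj, Finset.mem_image] at h4
    obtain ⟨w', h2, rfl⟩ := h4
    obtain ⟨l, h3, h4, h5, h6⟩ := hH i0.succ w' h2
    refine ⟨l, h3, h4, forall_split (fun i => ?_) fun i => ?_⟩
    · rw [sum_exR, addRightEmbedding_apply, Finsupp.add_apply, Finsupp.mapDomain_apply emb_inj,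
        Finsupp.single_eq_of_ne (emb_ne_y i i0), add_zero]
      exact h6 i
    · rw [addRightEmbedding_apply, Finsupp.add_apply, map_yv, zero_add]
      by_cases h7 : i = i0
      · subst h7
        rw [Finsupp.single_eq_same, Nat.cast_one, ← h4]
        refine Finset.sum_congr rfl fun j _ => ?_
        by_cases h8 : l j = 0
        · rw [h8, zero_mul]
        · rw [ex_y, if_pos (h5 j h8), Nat.cast_one, mul_one]
      · rw [Finsupp.single_eq_of_ne (fun h => h7 (y_inj h)), Nat.cast_zero]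
        refine Finset.sum_eq_zero fun j _ => ?_
        by_cases h8 : l j = 0
        · rw [h8, zero_mul]
        · rw [ex_y, if_neg, Nat.cast_zero, mul_zero]
          rw [h5 j h8]
          intro h10
          exact h7 (Fin.succ_injective _ h10).symm

lemma ex_ne_zero' (π : Fin r → Fin (k + 1)) (m : Fin r → Fin (N + k) → ℕ)
    (hm : ∀ j, π j = 0 → m j ≠ 0) (j : Fin r) : ex π m j ≠ 0 := by
  intro h0
  by_cases h1 : π j = 0
  · apply hm j h1
    funext v
    refine Fin.addCases (fun i => ?_) (fun i => ?_) v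
    · rw [← ex_x π m j i, h0]
      rfl
    · rw [← ex_z π m j i, h0]
      rfl
  · obtain ⟨i, hi⟩ := Fin.exists_succ_eq.2 h1
    have h2 := ex_y π m j i
    rw [h0, if_pos hi.symm] at h2
    exact zero_ne_one h2

lemma all3 {Q : Fin (N + (k + k)) → Prop} (h1 : ∀ i, Q (xv k i)) (h2 : ∀ i, Q (yv N i))
    (h3 : ∀ i, Q (zv N i)) (i) : Q i :=
  Fin.addCases (fun i => h1 i) (fun i => Fin.addCases (fun i => h2 i) (fun i => h3 i) i) i

/-- the automorphism `z_i ↦ l_i`, `y_i ↦ y_i + q_i` -/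
theorem becomesG_emb (F : MvPolynomial (Fin (N + k)) ℂ) (l : Fin k → MvPolynomial (Fin (N + k)) ℂ)
    (θ : MvPolynomial (Fin (N + k)) ℂ ≃ₐ[ℂ] MvPolynomial (Fin (N + k)) ℂ)
    (hx : ∀ i, θ (X (Fin.castAdd k i)) = X (Fin.castAdd k i))
    (hz : ∀ i, θ (X (Fin.natAdd N i)) = l i)
    (f : MvPolynomial (Fin N) ℂ) (q : Fin k → MvPolynomial (Fin (N + k)) ℂ)
    (hF : F = rename (Fin.castAdd k) f + ∑ i, q i * l i) :
    BecomesG f k (rename emb F + ∑ i : Fin k, X (yv N i) * rename emb (l i)) := by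
  have hx' : ∀ i, θ.symm (X (Fin.castAdd k i)) = X (Fin.castAdd k i) := by
    intro i
    rw [AlgEquiv.symm_apply_eq, hx]
  have hz' : ∀ i, θ.symm (l i) = X (Fin.natAdd N i) := by
    intro i
    rw [AlgEquiv.symm_apply_eq, hz]
  set Ψ : MvPolynomial (Fin (N + (k + k))) ℂ →ₐ[ℂ] MvPolynomial (Fin (N + (k + k))) ℂ :=
    aeval (Fin.append (fun i => X (xv k i)) (Fin.append
      (fun i => X (yv N i) - rename emb (θ.symm (q i)))
      (fun i => rename emb (θ.symm (X (Fin.natAdd N i)))))) with hΨ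
  have hΨx : ∀ i, Ψ (X (xv k i)) = X (xv k i) := by
    intro i
    rw [hΨ, aeval_X]
    unfold xv
    rw [Fin.append_left]
  have hΨy : ∀ i, Ψ (X (yv N i)) = X (yv N i) - rename emb (θ.symm (q i)) := by
    intro i
    rw [hΨ, aeval_X]
    unfold yv
    rw [Fin.append_right, Fin.append_left]
  have hΨz : ∀ i, Ψ (X (zv N i)) = rename emb (θ.symm (X (Fin.natAdd N i))) := by
    intro i
    rw [hΨ, aeval_X]
    unfold zv
    rw [Fin.append_right, Fin.append_right]
  have hΨe : ∀ p : MvPolynomial (Fin (N + k)) ℂ, Ψ (rename emb p) = rename emb (θ.symm p) := by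
    intro p
    have h1 : Ψ.comp (rename emb) = (rename emb).comp (θ.symm : _ →ₐ[ℂ] _) := by
      apply MvPolynomial.algHom_ext
      intro i
      refine Fin.addCases (fun i => ?_) (fun i => ?_) i
      · rw [AlgHom.comp_apply, AlgHom.comp_apply, rename_X, emb_l, hΨx]
        show _ = rename emb (θ.symm (X (Fin.castAdd k i)))
        rw [hx', rename_X, emb_l]
      · rw [AlgHom.comp_apply, AlgHom.comp_apply, rename_X, emb_r, hΨz]
        rfl
    exact DFunLike.congr_fun h1 p
  have hPx : ∀ i, aeval (Phi q l) (X (xv k i) : MvPolynomial (Fin (N + (k + k))) ℂ) =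
      X (xv k i) := by
    intro i
    rw [aeval_X, Phi_x]
  have hPy : ∀ i, aeval (Phi q l) (X (yv N i) : MvPolynomial (Fin (N + (k + k))) ℂ) =
      X (yv N i) + rename emb (q i) := by
    intro i
    rw [aeval_X, Phi_y]
  have hPz : ∀ i, aeval (Phi q l) (X (zv N i) : MvPolynomial (Fin (N + (k + k))) ℂ) =
      rename emb (l i) := by
    intro i
    rw [aeval_X, Phi_z]
  have hPe : ∀ p : MvPolynomial (Fin (N + k)) ℂ,
      aeval (Phi q l) (rename emb p) = rename emb (θ p) := by
    intro p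
    have h1 : (aeval (Phi q l) : MvPolynomial (Fin (N + (k + k))) ℂ →ₐ[ℂ] _).comp (rename emb) =
        (rename emb).comp (θ : _ →ₐ[ℂ] _) := by
      apply MvPolynomial.algHom_ext
      intro i
      refine Fin.addCases (fun i => ?_) (fun i => ?_) i
      · rw [AlgHom.comp_apply, AlgHom.comp_apply, rename_X, emb_l, hPx]
        show _ = rename emb (θ (X (Fin.castAdd k i)))
        rw [hx, rename_X, emb_l]
      · rw [AlgHom.comp_apply, AlgHom.comp_apply, rename_X, emb_r, hPz]
        show _ = rename emb (θ (X (Fin.natAdd N i)))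
        rw [hz]
    exact DFunLike.congr_fun h1 p
  refine ⟨AlgEquiv.ofAlgHom (aeval (Phi q l)) Ψ ?_ ?_, ?_⟩
  · apply MvPolynomial.algHom_ext
    refine all3 (fun i => ?_) (fun i => ?_) fun i => ?_
    · rw [AlgHom.comp_apply, AlgHom.id_apply, hΨx, hPx]
    · rw [AlgHom.comp_apply, AlgHom.id_apply, hΨy, map_sub, hPy, hPe, AlgEquiv.apply_symm_apply,
        add_sub_cancel_right]
    · rw [AlgHom.comp_apply, AlgHom.id_apply, hΨz, hPe, AlgEquiv.apply_symm_apply, rename_X, emb_r]
  · apply MvPolynomial.algHom_ext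
    refine all3 (fun i => ?_) (fun i => ?_) fun i => ?_
    · rw [AlgHom.comp_apply, AlgHom.id_apply, hPx, hΨx]
    · rw [AlgHom.comp_apply, AlgHom.id_apply, hPy, map_add, hΨy, hΨe, sub_add_cancel]
    · rw [AlgHom.comp_apply, AlgHom.id_apply, hPz, hΨe, hz', rename_X, emb_r]
  · show aeval (Phi q l) (stab f k) = _
    rw [aeval_stab, ← hF]

end Pool.Agent.Y229.PG
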