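import Pool.Agent.Y229.PG.Main

set_option autoImplicit false

/-! Generic compositions: the global strong monodromy conjecture. -/

namespace Pool.Agent.Y229.PG

open MvPolynomial
open Pool.Agent.H628R4.TP
open Pool.Agent.Y229.RE
open Pool.Agent.Y229.PS (tup hG sparse_hG)
open Pool.Agent.W425.SM (sparse SmoothFan Principal)
open Pool.Agent.W422.GC (topZetaG)
open Pool.Agent.W425.MM (NonD we wc)

variable {N k r : ℕ}

/-- **Generic functions on generic graphs.** -/
theorem graph_strong (hr : 1 ≤ r) (F : Subfield ℂ) (π : Fin r → Fin (k + 1))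
    (m : Fin r → Fin (N + k) → ℕ) (hinj : ∀ j j', π j = π j' → m j = m j' → j = j')
    (hm : ∀ j, π j = 0 → m j ≠ 0) (H : Fin (k + 1) → MvPolynomial (Fin (N + k)) F)
    (hH : ∀ i, ∀ w ∈ (H i).support, HullT π m i w) :
    ∃ g : MvPolynomial (Fin r) F, g ≠ 0 ∧ ∀ a : Fin r → ℂ, MvPolynomial.aeval a g ≠ 0 →
      NonD (Fin.append (ex π m) (we (hG H)))
        (Fin.append a (fun l => algebraMap F ℂ (wc (hG H) l))) ∧
      ∀ θ : MvPolynomial (Fin (N + k)) ℂ ≃ₐ[ℂ] MvPolynomial (Fin (N + k)) ℂ,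
        (∀ i, θ (X (Fin.castAdd k i)) = X (Fin.castAdd k i)) →
        (∀ i, θ (X (Fin.natAdd N i)) = tup π m a H i.succ) →
      ∀ (f : MvPolynomial (Fin N) ℂ) (q : Fin k → MvPolynomial (Fin (N + k)) ℂ),
        f.totalDegree ≠ 0 → tup π m a H 0 =
          rename (Fin.castAdd k) f + ∑ i, q i * tup π m a H i.succ →
      ∀ b : Polynomial ℂ, IsBFunction f b →
      ∀ R : SmoothFan (N + (k + k)), Principal (ex π m) R →
        ∃ P : Polynomial ℂ, algebraMap (Polynomial ℂ) (RatFunc ℂ)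
          (b * (Polynomial.X - Polynomial.C (k : ℂ))) *
          unstab k 1 (topZetaG (ex π m) R) = algebraMap (Polynomial ℂ) (RatFunc ℂ) P := by
  obtain ⟨g, hg0, hg⟩ := strongG hr F (ex π m) (ex_inj π m hinj) (ex_ne_zero' π m hm) (hG H)
    (hull_hG π m H hH)
  refine ⟨g, hg0, fun a ha => ⟨(hg a ha).1, fun θ hx hz f q hf hF b hb R hR =>
    (hg a ha).2 f hf ?_ b hb R hR⟩⟩
  rw [sparse_hG]
  exact becomesG_emb _ _ θ hx hz f q hF

/-- substitution modulo an ideal -/
lemma aeval_sub_mem {n m : ℕ} (J : Ideal (MvPolynomial (Fin m) ℂ))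
    (u w : Fin n → MvPolynomial (Fin m) ℂ) (h : ∀ i, u i - w i ∈ J)
    (p : MvPolynomial (Fin n) ℂ) : aeval u p - aeval w p ∈ J := by
  induction p using MvPolynomial.induction_on with
  | C c =>
    rw [show aeval u (C c : MvPolynomial (Fin n) ℂ) = C c from (aeval u).commutes c,
      show aeval w (C c : MvPolynomial (Fin n) ℂ) = C c from (aeval w).commutes c, sub_self]
    exact J.zero_mem
  | add p q hp hq =>
    rw [map_add, map_add, add_sub_add_comm]
    exact J.add_mem hp hq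
  | mul_X p i hp =>
    rw [map_mul, map_mul, aeval_X, aeval_X]
    have e : aeval u p * u i - aeval w p * w i =
        (aeval u p - aeval w p) * u i + aeval w p * (u i - w i) := by ring
    rw [e]
    exact J.add_mem (J.mul_mem_right _ hp) (J.mul_mem_left _ (h i))

lemma aeval_X_comp {n m : ℕ} (f : Fin n → Fin m) (u : MvPolynomial (Fin n) ℂ) :
    aeval ((X : Fin m → MvPolynomial (Fin m) ℂ) ∘ f) u = rename f u := by
  have h3 := aeval_rename (R := ℂ) f X u (S := MvPolynomial (Fin m) ℂ)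
  rw [aeval_X_left_apply] at h3
  exact h3.symm

/-- the automorphism `z_i ↦ c_i z_i - p_i` -/
theorem graph_equiv (c : Fin k → ℂ) (hc : ∀ i, c i ≠ 0) (p : Fin k → MvPolynomial (Fin N) ℂ) :
    ∃ θ : MvPolynomial (Fin (N + k)) ℂ ≃ₐ[ℂ] MvPolynomial (Fin (N + k)) ℂ,
      (∀ i, θ (X (Fin.castAdd k i)) = X (Fin.castAdd k i)) ∧
      ∀ i, θ (X (Fin.natAdd N i)) = C (c i) * X (Fin.natAdd N i) -
        rename (Fin.castAdd k) (p i) := by
  set A : MvPolynomial (Fin (N + k)) ℂ →ₐ[ℂ] MvPolynomial (Fin (N + k)) ℂ :=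
    aeval (Fin.append (fun i => X (Fin.castAdd k i)) fun i => C (c i) * X (Fin.natAdd N i) -
        rename (Fin.castAdd k) (p i)) with hA
  set B : MvPolynomial (Fin (N + k)) ℂ →ₐ[ℂ] MvPolynomial (Fin (N + k)) ℂ :=
    aeval (Fin.append (fun i => X (Fin.castAdd k i)) fun i => C (c i)⁻¹ * (X (Fin.natAdd N i) +
        rename (Fin.castAdd k) (p i))) with hB
  have hAx : ∀ i, A (X (Fin.castAdd k i)) = X (Fin.castAdd k i) := fun i => by
    rw [hA, aeval_X, Fin.append_left]
  have hBx : ∀ i, B (X (Fin.castAdd k i)) = X (Fin.castAdd k i) := fun i => by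
    rw [hB, aeval_X, Fin.append_left]
  have hAz : ∀ i, A (X (Fin.natAdd N i)) = C (c i) * X (Fin.natAdd N i) -
      rename (Fin.castAdd k) (p i) := fun i => by
    rw [hA, aeval_X, Fin.append_right]
  have hBz : ∀ i, B (X (Fin.natAdd N i)) = C (c i)⁻¹ * (X (Fin.natAdd N i) +
        rename (Fin.castAdd k) (p i)) := fun i => by
    rw [hB, aeval_X, Fin.append_right]
  have hAp : ∀ u : MvPolynomial (Fin N) ℂ, A (rename (Fin.castAdd k) u) =
      rename (Fin.castAdd k) u := by
    intro u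
    rw [hA, aeval_rename]
    have h1 : (Fin.append (fun i => (X (Fin.castAdd k i) : MvPolynomial (Fin (N + k)) ℂ))
        fun i => C (c i) * X (Fin.natAdd N i) - rename (Fin.castAdd k) (p i)) ∘ Fin.castAdd k =
        X ∘ Fin.castAdd k := by
      funext i
      rw [Function.comp_apply, Fin.append_left, Function.comp_apply]
    rw [h1, aeval_X_comp]
  have hBp : ∀ u : MvPolynomial (Fin N) ℂ, B (rename (Fin.castAdd k) u) =
      rename (Fin.castAdd k) u := by
    intro u
    rw [hB, aeval_rename]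
    have h1 : (Fin.append (fun i => (X (Fin.castAdd k i) : MvPolynomial (Fin (N + k)) ℂ))
        fun i => C (c i)⁻¹ * (X (Fin.natAdd N i) + rename (Fin.castAdd k) (p i))) ∘
          Fin.castAdd k = X ∘ Fin.castAdd k := by
      funext i
      rw [Function.comp_apply, Fin.append_left, Function.comp_apply]
    rw [h1, aeval_X_comp]
  have hCA : ∀ z : ℂ, A (C z) = C z := fun z => A.commutes z
  have hCB : ∀ z : ℂ, B (C z) = C z := fun z => B.commutes z
  refine ⟨AlgEquiv.ofAlgHom A B ?_ ?_, hAx, hAz⟩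
  · apply MvPolynomial.algHom_ext
    intro i
    refine Fin.addCases (fun i => ?_) (fun i => ?_) i
    · rw [AlgHom.comp_apply, AlgHom.id_apply, hBx, hAx]
    · rw [AlgHom.comp_apply, AlgHom.id_apply, hBz, map_mul, map_add, hCA, hAz, hAp,
        sub_add_cancel, ← mul_assoc, ← C_mul, inv_mul_cancel₀ (hc i), C_1, one_mul]
  · apply MvPolynomial.algHom_ext
    intro i
    refine Fin.addCases (fun i => ?_) (fun i => ?_) i
    · rw [AlgHom.comp_apply, AlgHom.id_apply, hAx, hBx]
    · rw [AlgHom.comp_apply, AlgHom.id_apply, hAz, map_sub, map_mul, hCB, hBz, hBp, ← mul_assoc,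
        ← C_mul, mul_inv_cancel₀ (hc i), C_1, one_mul, add_sub_cancel_right]

/-- the restriction to the graph -/
theorem graph_restrict (c : Fin k → ℂ) (hc : ∀ i, c i ≠ 0) (p : Fin k → MvPolynomial (Fin N) ℂ)
    (Φ : MvPolynomial (Fin (N + k)) ℂ) :
    ∃ q : Fin k → MvPolynomial (Fin (N + k)) ℂ, Φ =
      rename (Fin.castAdd k) (aeval (Fin.append X fun i => C (c i)⁻¹ * p i) Φ) +
        ∑ i, q i * (C (c i) * X (Fin.natAdd N i) - rename (Fin.castAdd k) (p i)) := by
  set l : Fin k → MvPolynomial (Fin (N + k)) ℂ := fun i => C (c i) * X (Fin.natAdd N i) -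
    rename (Fin.castAdd k) (p i) with hl
  set w : Fin (N + k) → MvPolynomial (Fin (N + k)) ℂ := fun v =>
    rename (Fin.castAdd k) ((Fin.append (X : Fin N → MvPolynomial (Fin N) ℂ)
      fun i => C (c i)⁻¹ * p i) v) with hw
  have h1 : aeval (X : Fin (N + k) → MvPolynomial (Fin (N + k)) ℂ) Φ - aeval w Φ ∈
      Ideal.span (Set.range l) := by
    refine aeval_sub_mem _ _ _ (fun v => ?_) Φ
    refine Fin.addCases (fun i => ?_) (fun i => ?_) v
    · rw [hw]
      show X (Fin.castAdd k i) - rename (Fin.castAdd k) (Fin.append X _ (Fin.castAdd k i)) ∈ _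
      rw [Fin.append_left, rename_X, sub_self]
      exact Ideal.zero_mem _
    · rw [hw]
      show X (Fin.natAdd N i) - rename (Fin.castAdd k) (Fin.append X _ (Fin.natAdd N i)) ∈ _
      have h2 : (X (Fin.natAdd N i) - rename (Fin.castAdd k)
          (Fin.append (X : Fin N → MvPolynomial (Fin N) ℂ) (fun i => C (c i)⁻¹ * p i)
            (Fin.natAdd N i)) : MvPolynomial (Fin (N + k)) ℂ) = C (c i)⁻¹ * l i := by
        rw [Fin.append_right, map_mul, rename_C, hl]
        show _ = C (c i)⁻¹ * (C (c i) * X (Fin.natAdd N i) - rename (Fin.castAdd k) (p i))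
        rw [mul_sub, ← mul_assoc, ← C_mul, inv_mul_cancel₀ (hc i), C_1, one_mul]
      rw [h2]
      exact Ideal.mul_mem_left _ _ (Ideal.subset_span ⟨i, rfl⟩)
  rw [aeval_X_left_apply] at h1
  obtain ⟨q, hq⟩ := (Ideal.mem_span_range_iff_exists_fun).1 h1
  refine ⟨q, ?_⟩
  have h3 : aeval w Φ = rename (Fin.castAdd k)
      (aeval (Fin.append X fun i => C (c i)⁻¹ * p i) Φ) := by
    have h4 := MvPolynomial.comp_aeval_apply (R := ℂ)
      (f := Fin.append (X : Fin N → MvPolynomial (Fin N) ℂ) fun i => C (c i)⁻¹ * p i)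
      (φ := rename (R := ℂ) (Fin.castAdd k : Fin N → Fin (N + k))) Φ
    exact h4.symm
  rw [← h3, hq]
  ring

end Pool.Agent.Y229.PG
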