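import Pool.Agent.Y229.PG.Cmp
import Pool.Agent.W425.GN.Ideals

set_option autoImplicit false

/-! Ideals generated by generic compositions: the global strong monodromy conjecture. -/

namespace Pool.Agent.Y229.PG

open MvPolynomial
open Pool.Agent.H628R4.TP
open Pool.Agent.Y229.RE
open Pool.Agent.Y229.PS (tup hG sparse_hG)
open Pool.Agent.W425.SM (sparse SmoothFan Principal)
open Pool.Agent.W422.GC (topZetaG)
open Pool.Agent.W425.MM (NonD we wc)
open Pool.Agent.W749.JI (fam)

variable {N k P r : ℕ}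

/-- `∑_{π j = i} a_j X ^ (m_j) + H_i` -/
noncomputable def tupQ {n q : ℕ} {F : Subfield ℂ} (π : Fin r → Fin q) (m : Fin r → Fin n → ℕ)
    (a : Fin r → ℂ) (H : Fin q → MvPolynomial (Fin n) F) (i : Fin q) :
    MvPolynomial (Fin n) ℂ :=
  fam π m a i + MvPolynomial.map (algebraMap F ℂ) (H i)

/-- The exponent `w` lies in the convex hull of the `m j` with `π j = i`. -/
def HullQ {n q : ℕ} (π : Fin r → Fin q) (m : Fin r → Fin n → ℕ) (i : Fin q)
    (w : Fin n →₀ ℕ) : Prop :=
  ∃ l : Fin r → ℝ, (∀ j, 0 ≤ l j) ∧ ∑ j, l j = 1 ∧ (∀ j, l j ≠ 0 → π j = i) ∧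
    ∀ x, ∑ j, l j * (m j x : ℝ) = (w x : ℝ)

/-- the groups: `0` for the generators of the ideal, `i + 1` for `l_i` -/
def iP (π : Fin r → Fin (k + P)) (j : Fin r) : Fin (k + 1) :=
  Fin.addCases (fun i => i.succ) (fun _ => 0) (π j)

/-- the exponents of `∑ u_j F_j` and of the `l_i` in the variables `u, x, z` -/
def iM (π : Fin r → Fin (k + P)) (m : Fin r → Fin (N + k) → ℕ) (j : Fin r) :
    Fin ((P + N) + k) → ℕ :=
  Fin.append (Fin.append (fun j' => if π j = Fin.natAdd k j' then 1 else 0)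
    (fun i => m j (Fin.castAdd k i))) (fun i => m j (Fin.natAdd N i))

/-- the variables `x, z` among `u, x, z` -/
def iv (P : ℕ) (v : Fin (N + k)) : Fin ((P + N) + k) :=
  Fin.addCases (fun i => Fin.castAdd k (Fin.natAdd P i)) (fun i => Fin.natAdd (P + N) i) v

/-- the variables `u` -/
def uv (N k : ℕ) (j : Fin P) : Fin ((P + N) + k) := Fin.castAdd k (Fin.castAdd N j)

lemma iv_l (i : Fin N) : iv P (Fin.castAdd k i) = Fin.castAdd k (Fin.natAdd P i) := by
  unfold iv
  rw [Fin.addCases_left]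

lemma iv_r (i : Fin k) : iv P (Fin.natAdd N i) = Fin.natAdd (P + N) i := by
  unfold iv
  rw [Fin.addCases_right]

lemma iM_u (π : Fin r → Fin (k + P)) (m : Fin r → Fin (N + k) → ℕ) (j : Fin r) (j' : Fin P) :
    iM π m j (uv N k j') = if π j = Fin.natAdd k j' then 1 else 0 := by
  unfold iM uv
  rw [Fin.append_left, Fin.append_left]

lemma iM_v (π : Fin r → Fin (k + P)) (m : Fin r → Fin (N + k) → ℕ) (j : Fin r)
    (v : Fin (N + k)) : iM π m j (iv P v) = m j v := by
  refine Fin.addCases (fun i => ?_) (fun i => ?_) v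
  · rw [iv_l]
    unfold iM
    rw [Fin.append_left, Fin.append_right]
  · rw [iv_r]
    unfold iM
    rw [Fin.append_right]

lemma iall {Q : Fin ((P + N) + k) → Prop} (h1 : ∀ j, Q (uv N k j)) (h2 : ∀ v, Q (iv P v)) (i) :
    Q i := by
  refine Fin.addCases (fun i => ?_) (fun i => ?_) i
  · refine Fin.addCases (fun i => h1 i) (fun i => ?_) i
    rw [← iv_l]
    exact h2 _
  · rw [← iv_r]
    exact h2 _

lemma uv_ne (j : Fin P) (v : Fin (N + k)) : iv P v ≠ uv N k j := by
  intro h
  have h1 := congrArg (Fin.append (Fin.append (fun _ : Fin P => (1 : ℕ)) (fun _ : Fin N => 0))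
    (fun _ : Fin k => 0)) h
  unfold uv at h1
  rw [Fin.append_left, Fin.append_left] at h1
  revert h1
  refine Fin.addCases (fun i => ?_) (fun i => ?_) v
  · rw [iv_l, Fin.append_left, Fin.append_right]
    exact zero_ne_one
  · rw [iv_r, Fin.append_right]
    exact zero_ne_one

lemma uv_inj : Function.Injective (uv N k : Fin P → _) := by
  intro a b h
  exact Fin.castAdd_injective _ _ (Fin.castAdd_injective _ _ h)

lemma iv_inj : Function.Injective (iv P : Fin (N + k) → _) := by
  intro a b h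
  classical
  have h1 : ∀ c : Fin (N + k), Fin.append (Fin.append (fun _ : Fin P => (0 : ℕ))
      (fun i : Fin N => if Fin.castAdd k i = a then 1 else 0))
        (fun i : Fin k => if Fin.natAdd N i = a then 1 else 0) (iv P c) =
      if c = a then 1 else 0 := by
    intro c
    refine Fin.addCases (fun i => ?_) (fun i => ?_) c
    · rw [iv_l, Fin.append_left, Fin.append_right]
    · rw [iv_r, Fin.append_right]
  have h2 := h1 a
  rw [h, h1 b, if_pos rfl] at h2
  by_contra hne
  rw [if_neg (Ne.symm hne)] at h2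
  exact zero_ne_one h2

lemma isum {A : Type} [AddCommMonoid A] (f : Fin ((P + N) + k) → A) :
    ∑ i, f i = ∑ j : Fin P, f (uv N k j) + ∑ v : Fin (N + k), f (iv P v) := by
  rw [Fin.sum_univ_add, Fin.sum_univ_add, Fin.sum_univ_add]
  simp only [iv_l, iv_r]
  rw [add_assoc]
  rfl

lemma iprod {A : Type} [CommMonoid A] (f : Fin ((P + N) + k) → A) :
    ∏ i, f i = (∏ j : Fin P, f (uv N k j)) * ∏ v : Fin (N + k), f (iv P v) := by
  rw [Fin.prod_univ_add, Fin.prod_univ_add, Fin.prod_univ_add]
  simp only [iv_l, iv_r]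
  rw [mul_assoc]
  rfl

lemma iP_l (π : Fin r → Fin (k + P)) (j : Fin r) (i : Fin k) (h : π j = Fin.castAdd P i) :
    iP π j = i.succ := by
  unfold iP
  rw [h, Fin.addCases_left]

lemma iP_r (π : Fin r → Fin (k + P)) (j : Fin r) (i : Fin P) (h : π j = Fin.natAdd k i) :
    iP π j = 0 := by
  unfold iP
  rw [h, Fin.addCases_right]

lemma iP_l' (π : Fin r → Fin (k + P)) (j : Fin r) (i : Fin k) (h : iP π j = i.succ) :
    π j = Fin.castAdd P i := by
  rcases Fin.addCases (motive := fun q => (∃ i', q = Fin.castAdd P i') ∨ ∃ i', q = Fin.natAdd k i')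
    (fun i' => Or.inl ⟨i', rfl⟩) (fun i' => Or.inr ⟨i', rfl⟩) (π j) with ⟨i', h'⟩ | ⟨i', h'⟩
  · rw [iP_l π j i' h'] at h
    rw [h', Fin.succ_injective _ h]
  · rw [iP_r π j i' h'] at h
    exact absurd h (Fin.succ_ne_zero i).symm

lemma iP_r' (π : Fin r → Fin (k + P)) (j : Fin r) (h : iP π j = 0) :
    ∃ i, π j = Fin.natAdd k i := by
  rcases Fin.addCases (motive := fun q => (∃ i', q = Fin.castAdd P i') ∨ ∃ i', q = Fin.natAdd k i')
    (fun i' => Or.inl ⟨i', rfl⟩) (fun i' => Or.inr ⟨i', rfl⟩) (π j) with ⟨i', h'⟩ | ⟨i', h'⟩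
  · rw [iP_l π j i' h'] at h
    exact absurd h (Fin.succ_ne_zero i')
  · exact ⟨i', h'⟩

lemma i_inj (π : Fin r → Fin (k + P)) (m : Fin r → Fin (N + k) → ℕ)
    (hinj : ∀ j j', π j = π j' → m j = m j' → j = j') :
    ∀ j j', iP π j = iP π j' → iM π m j = iM π m j' → j = j' := by
  intro j j' h1 h2
  refine hinj j j' ?_ ?_
  · rcases Fin.eq_zero_or_eq_succ (iP π j) with h3 | ⟨i, h3⟩
    · obtain ⟨i, hi⟩ := iP_r' π j h3
      have h4 := congrFun h2 (uv N k i)
      rw [iM_u, iM_u, if_pos hi] at h4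
      by_cases h5 : π j' = Fin.natAdd k i
      · rw [hi, h5]
      · rw [if_neg h5] at h4
        exact absurd h4 one_ne_zero
    · rw [iP_l' π j i h3, iP_l' π j' i (by rw [← h1, h3])]
  · funext v
    have h4 := congrFun h2 (iv P v)
    rwa [iM_v, iM_v] at h4

lemma i_ne (π : Fin r → Fin (k + P)) (m : Fin r → Fin (N + k) → ℕ) (j : Fin r)
    (h : iP π j = 0) : iM π m j ≠ 0 := by
  intro h0
  obtain ⟨i, hi⟩ := iP_r' π j h
  have h4 := congrFun h0 (uv N k i)
  rw [iM_u, if_pos hi] at h4
  exact one_ne_zero h4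

lemma mono_i (π : Fin r → Fin (k + P)) (m : Fin r → Fin (N + k) → ℕ) (j : Fin r) :
    ∏ v, (X v : MvPolynomial (Fin ((P + N) + k)) ℂ) ^ iM π m j v =
      (∏ j' : Fin P, if π j = Fin.natAdd k j' then X (uv N k j') else 1) *
        rename (iv P) (∏ v, X v ^ m j v) := by
  rw [iprod, map_prod]
  congr 1
  · refine Finset.prod_congr rfl fun j' _ => ?_
    rw [iM_u]
    split_ifs
    · rw [pow_one]
    · rw [pow_zero]
  · refine Finset.prod_congr rfl fun v _ => ?_
    rw [iM_v, map_pow, rename_X]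

lemma fam_l (π : Fin r → Fin (k + P)) (m : Fin r → Fin (N + k) → ℕ) (a : Fin r → ℂ) (i : Fin k) :
    fam (iP π) (iM π m) a i.succ = rename (iv P) (fam π m a (Fin.castAdd P i)) := by
  classical
  unfold fam
  rw [map_sum]
  refine Finset.sum_congr ?_ fun j hj => ?_
  · ext j
    simp only [Finset.mem_filter, Finset.mem_univ, true_and]
    exact ⟨fun h => iP_l' π j i h, fun h => iP_l π j i h⟩
  · have h1 : π j = Fin.castAdd P i := (Finset.mem_filter.1 hj).2
    rw [mono_i, Finset.prod_eq_one, one_mul, map_mul, rename_C]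
    intro j' _
    rw [if_neg]
    rw [h1]
    intro h
    have := congrArg Fin.val h
    simp at this
    omega

lemma fam_u (π : Fin r → Fin (k + P)) (m : Fin r → Fin (N + k) → ℕ) (a : Fin r → ℂ) :
    fam (iP π) (iM π m) a 0 = ∑ j' : Fin P, X (uv N k j') *
      rename (iv P) (fam π m a (Fin.natAdd k j')) := by
  classical
  have h1 : ∀ j' : Fin P, X (uv N k j') * rename (iv P) (fam π m a (Fin.natAdd k j')) =
      ∑ j, if π j = Fin.natAdd k j' then C (a j) * ∏ v,
        (X v : MvPolynomial (Fin ((P + N) + k)) ℂ) ^ iM π m j v else 0 := by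
    intro j'
    unfold fam
    rw [map_sum, Finset.mul_sum, Finset.sum_filter]
    refine Finset.sum_congr rfl fun j _ => ?_
    by_cases h2 : π j = Fin.natAdd k j'
    · rw [if_pos h2, if_pos h2, mono_i, map_mul, rename_C, Finset.prod_eq_single j']
      · rw [if_pos h2]
        ring
      · intro j'' _ h3
        rw [if_neg]
        rw [h2]
        intro h4
        apply h3
        have := congrArg Fin.val h4
        simp at this
        exact Fin.ext this.symm
      · intro h
        exact absurd (Finset.mem_univ _) h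
    · rw [if_neg h2, if_neg h2]
  rw [Finset.sum_congr rfl fun j' _ => h1 j', Finset.sum_comm]
  unfold fam
  rw [Finset.sum_filter]
  refine Finset.sum_congr rfl fun j _ => ?_
  by_cases h2 : iP π j = 0
  · obtain ⟨i, hi⟩ := iP_r' π j h2
    rw [if_pos h2, Finset.sum_eq_single i, if_pos hi]
    · intro j'' _ h3
      rw [if_neg]
      rw [hi]
      intro h4
      apply h3
      have := congrArg Fin.val h4
      simp at this
      exact Fin.ext this.symm
    · intro h
      exact absurd (Finset.mem_univ _) h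
  · rw [if_neg h2]
    refine (Finset.sum_eq_zero fun j' _ => ?_).symm
    rw [if_neg]
    intro h3
    exact h2 (iP_r π j j' h3)

end Pool.Agent.Y229.PG
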