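import Pool.Agent.Y229.PG.Idl

set_option autoImplicit false

/-! Ideals generated by generic compositions: the theorem. -/

namespace Pool.Agent.Y229.PG

open MvPolynomial
open Pool.Agent.H628R4.TP
open Pool.Agent.Y229.RE
open Pool.Agent.Y229.PS (tup hG sparse_hG)
open Pool.Agent.W425.SM (sparse SmoothFan Principal)
open Pool.Agent.W422.GC (topZetaG)
open Pool.Agent.W425.MM (NonD we wc)
open Pool.Agent.W749.JI (fam)
open Pool.Agent.W574.HS (univ)
open Pool.Agent.W574.SM (IsFunctionalEq)

variable {N k P r : ℕ}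

/-- the fixed parts of `∑ u_j F_j` and of the `l_i` -/
noncomputable def iH {F : Subfield ℂ} (H : Fin (k + P) → MvPolynomial (Fin (N + k)) F) :
    Fin (k + 1) → MvPolynomial (Fin ((P + N) + k)) F :=
  Fin.cons (∑ j : Fin P, X (uv N k j) * rename (iv P) (H (Fin.natAdd k j)))
    (fun i => rename (iv P) (H (Fin.castAdd P i)))

lemma tup_i0 {F : Subfield ℂ} (π : Fin r → Fin (k + P)) (m : Fin r → Fin (N + k) → ℕ)
    (a : Fin r → ℂ) (H : Fin (k + P) → MvPolynomial (Fin (N + k)) F) :
    tup (iP π) (iM π m) a (iH H) 0 = ∑ j : Fin P, X (uv N k j) *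
      rename (iv P) (tupQ π m a H (Fin.natAdd k j)) := by
  unfold tup tupQ iH
  rw [fam_u, Fin.cons_zero, map_sum, ← Finset.sum_add_distrib]
  refine Finset.sum_congr rfl fun j _ => ?_
  rw [map_mul, map_X, map_rename, map_add, mul_add]

lemma tup_is {F : Subfield ℂ} (π : Fin r → Fin (k + P)) (m : Fin r → Fin (N + k) → ℕ)
    (a : Fin r → ℂ) (H : Fin (k + P) → MvPolynomial (Fin (N + k)) F) (i : Fin k) :
    tup (iP π) (iM π m) a (iH H) i.succ = rename (iv P) (tupQ π m a H (Fin.castAdd P i)) := by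
  unfold tup tupQ iH
  rw [fam_l, Fin.cons_succ, map_rename, map_add]

lemma map_uv (w : Fin (N + k) →₀ ℕ) (j : Fin P) :
    Finsupp.mapDomain (iv P : Fin (N + k) → _) w (uv N k j) = 0 :=
  Finsupp.mapDomain_of_notMem_range _ _ (by
    rintro ⟨v, hv⟩
    exact uv_ne j v hv)

lemma ihull {F : Subfield ℂ} (π : Fin r → Fin (k + P)) (m : Fin r → Fin (N + k) → ℕ)
    (H : Fin (k + P) → MvPolynomial (Fin (N + k)) F)
    (hH : ∀ i, ∀ w ∈ (H i).support, HullQ π m i w) :
    ∀ i, ∀ w ∈ (iH H i).support, HullT (iP π) (iM π m) i w := by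
  classical
  intro i
  refine Fin.cases ?_ (fun i => ?_) i
  · intro w hw
    unfold iH at hw
    rw [Fin.cons_zero] at hw
    have h2 := MvPolynomial.support_sum hw
    rw [Finset.mem_biUnion] at h2
    obtain ⟨j0, -, h3⟩ := h2
    rw [mul_comm, MvPolynomial.support_mul_X, Finset.mem_map] at h3
    obtain ⟨w1, h4, rfl⟩ := h3
    rw [support_rename_of_injective iv_inj, Finset.mem_image] at h4
    obtain ⟨w', h2, rfl⟩ := h4
    obtain ⟨l, h3, h4, h5, h6⟩ := hH _ w' h2
    refine ⟨l, h3, h4, fun j hj => iP_r π j j0 (h5 j hj), iall (fun j' => ?_) fun v => ?_⟩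
    · rw [addRightEmbedding_apply, Finsupp.add_apply, map_uv, zero_add]
      by_cases h7 : j' = j0
      · subst h7
        rw [Finsupp.single_eq_same, Nat.cast_one, ← h4]
        refine Finset.sum_congr rfl fun j _ => ?_
        by_cases h8 : l j = 0
        · rw [h8, zero_mul]
        · rw [iM_u, if_pos (h5 j h8), Nat.cast_one, mul_one]
      · rw [Finsupp.single_eq_of_ne (fun h => h7 (uv_inj h)), Nat.cast_zero]
        refine Finset.sum_eq_zero fun j _ => ?_
        by_cases h8 : l j = 0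
        · rw [h8, zero_mul]
        · rw [iM_u, if_neg, Nat.cast_zero, mul_zero]
          rw [h5 j h8]
          intro h10
          apply h7
          have := congrArg Fin.val h10
          simp at this
          exact Fin.ext this.symm
    · rw [addRightEmbedding_apply, Finsupp.add_apply, Finsupp.mapDomain_apply iv_inj,
        Finsupp.single_eq_of_ne (uv_ne j0 v), add_zero, ← h6 v]
      refine Finset.sum_congr rfl fun j _ => ?_
      rw [iM_v]
  · intro w hw
    unfold iH at hw
    rw [Fin.cons_succ, support_rename_of_injective iv_inj, Finset.mem_image] at hw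
    obtain ⟨w', h2, rfl⟩ := hw
    obtain ⟨l, h3, h4, h5, h6⟩ := hH _ w' h2
    refine ⟨l, h3, h4, fun j hj => iP_l π j i (h5 j hj), iall (fun j' => ?_) fun v => ?_⟩
    · rw [map_uv, Nat.cast_zero]
      refine Finset.sum_eq_zero fun j _ => ?_
      by_cases h8 : l j = 0
      · rw [h8, zero_mul]
      · rw [iM_u, if_neg, Nat.cast_zero, mul_zero]
        rw [h5 j h8]
        intro h10
        have := congrArg Fin.val h10
        simp at this
        omega
    · rw [Finsupp.mapDomain_apply iv_inj, ← h6 v]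
      refine Finset.sum_congr rfl fun j _ => ?_
      rw [iM_v]

/-- `∑ u_j f_j` in the variables `u, x` -/
noncomputable def lin (f : Fin P → MvPolynomial (Fin N) ℂ) : MvPolynomial (Fin (P + N)) ℂ :=
  ∑ j, X (Fin.castAdd N j) * rename (Fin.natAdd P) (f j)

lemma rename_lin (f : Fin P → MvPolynomial (Fin N) ℂ) :
    rename (finSumFinEquiv : Fin P ⊕ Fin N ≃ Fin (P + N)) (univ f) = lin f := by
  unfold univ lin
  rw [map_sum]
  refine Finset.sum_congr rfl fun j _ => ?_
  rw [map_mul, rename_X, rename_rename, finSumFinEquiv_apply_left]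
  congr 2

lemma lin_deg (f : Fin P → MvPolynomial (Fin N) ℂ) (hf : ∃ j, f j ≠ 0) :
    (lin f).totalDegree ≠ 0 := by
  classical
  intro h0
  obtain ⟨j0, hj0⟩ := hf
  have h1 := totalDegree_eq_zero_iff_eq_C.1 h0
  have h2 : ∀ e : Fin P → ℂ, aeval (Fin.append (fun j => C (e j)) X) (lin f) =
      ∑ j, C (e j) * f j := by
    intro e
    unfold lin
    rw [map_sum]
    refine Finset.sum_congr rfl fun j _ => ?_
    rw [map_mul, aeval_X, Fin.append_left, aeval_rename]
    congr 1
    have h3 : (Fin.append (fun j => (C (e j) : MvPolynomial (Fin N) ℂ)) X) ∘ Fin.natAdd P = X := by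
      funext i
      rw [Function.comp_apply, Fin.append_right]
    rw [h3, aeval_X_left_apply]
  have h4 := h2 0
  have h5 := h2 (Pi.single j0 1)
  rw [h1] at h4 h5
  have hC : ∀ e : Fin P → ℂ, aeval (Fin.append (fun j => (C (e j) : MvPolynomial (Fin N) ℂ)) X)
      (C (coeff 0 (lin f)) : MvPolynomial (Fin (P + N)) ℂ) = C (coeff 0 (lin f)) := by
    intro e
    exact (aeval _).commutes _
  rw [hC] at h4 h5
  rw [h5] at h4
  apply hj0
  rw [Finset.sum_eq_single j0] at h4
  · rw [Pi.single_eq_same, C_1, one_mul] at h4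
    rw [h4]
    exact Finset.sum_eq_zero fun j _ => by rw [Pi.zero_apply, C_0, zero_mul]
  · intro j _ hj
    rw [Pi.single_eq_of_ne hj, C_0, zero_mul]
  · intro h
    exact absurd (Finset.mem_univ _) h

/-- the restriction of `∑ u_j F_j` -/
lemma lin_restrict (c : Fin k → ℂ) (p : Fin k → MvPolynomial (Fin N) ℂ)
    (Φ : Fin P → MvPolynomial (Fin (N + k)) ℂ) :
    aeval (Fin.append X fun i => C (c i)⁻¹ * rename (Fin.natAdd P) (p i))
      (∑ j : Fin P, X (uv N k j) * rename (iv P) (Φ j)) =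
      lin fun j => aeval (Fin.append X fun i => C (c i)⁻¹ * p i) (Φ j) := by
  unfold lin
  rw [map_sum]
  refine Finset.sum_congr rfl fun j _ => ?_
  rw [map_mul, aeval_X, aeval_rename]
  congr 1
  · unfold uv
    rw [Fin.append_left]
  · have h4 := MvPolynomial.comp_aeval_apply (R := ℂ)
      (f := Fin.append (X : Fin N → MvPolynomial (Fin N) ℂ) fun i => C (c i)⁻¹ * p i)
      (φ := rename (R := ℂ) (Fin.natAdd P : Fin N → Fin (P + N))) (Φ j)
    rw [h4]
    congr 1
    congr 1
    funext v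
    refine Fin.addCases (fun i => ?_) (fun i => ?_) v
    · rw [Function.comp_apply, iv_l, Fin.append_left, Fin.append_left, rename_X]
    · rw [Function.comp_apply, iv_r, Fin.append_right, Fin.append_right, map_mul, rename_C]

/-- **Ideals generated by generic compositions.** -/
theorem ideal_strong (hr : 1 ≤ r) (F : Subfield ℂ) (π : Fin r → Fin (k + P))
    (m : Fin r → Fin (N + k) → ℕ) (hinj : ∀ j j', π j = π j' → m j = m j' → j = j')
    (H : Fin (k + P) → MvPolynomial (Fin (N + k)) F)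
    (hH : ∀ i, ∀ w ∈ (H i).support, HullQ π m i w) :
    ∃ g : MvPolynomial (Fin r) F, g ≠ 0 ∧ ∀ a : Fin r → ℂ, MvPolynomial.aeval a g ≠ 0 →
      NonD (Fin.append (ex (iP π) (iM π m)) (we (hG (iH H))))
        (Fin.append a (fun l => algebraMap F ℂ (wc (hG (iH H)) l))) ∧
      ∀ (c : Fin k → ℂ) (p : Fin k → MvPolynomial (Fin N) ℂ), (∀ i, c i ≠ 0) →
        (∀ i : Fin k, tupQ π m a H (Fin.castAdd P i) = C (c i) * X (Fin.natAdd N i) -
          rename (Fin.castAdd k) (p i)) →
        ∀ f : Fin P → MvPolynomial (Fin N) ℂ, (∀ j, f j = aeval (Fin.append X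
          fun i => C (c i)⁻¹ * p i) (tupQ π m a H (Fin.natAdd k j))) → (∃ j, f j ≠ 0) →
        ∀ b : Polynomial ℂ, IsFunctionalEq f b →
        ∀ R : SmoothFan ((P + N) + (k + k)), Principal (ex (iP π) (iM π m)) R →
          ∃ Q : Polynomial ℂ, algebraMap (Polynomial ℂ) (RatFunc ℂ)
            (b * (Polynomial.X - Polynomial.C (k : ℂ))) * ((RatFunc.X + 1) *
              unstab k 1 (topZetaG (ex (iP π) (iM π m)) R)) =
            algebraMap (Polynomial ℂ) (RatFunc ℂ) Q := by
  obtain ⟨g, hg0, hg⟩ := graph_strong hr F (iP π) (iM π m) (i_inj π m hinj) (i_ne π m) (iH H)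
    (ihull π m H hH)
  refine ⟨g, hg0, fun a ha => ⟨(hg a ha).1, ?_⟩⟩
  intro c p hc hl f hf hf0 b hb R hR
  have h1 := Pool.Agent.W366.SI.taskI1 f _ hb
  have h2 := Pool.Agent.W578.SI.taskI2.1 (finSumFinEquiv : Fin P ⊕ Fin N ≃ Fin (P + N)) _ _ h1
  rw [rename_lin] at h2
  obtain ⟨θ, h3, h4⟩ := graph_equiv c hc (fun i => rename (Fin.natAdd P) (p i))
  obtain ⟨q, hq⟩ := graph_restrict c hc (fun i => rename (Fin.natAdd P) (p i))
    (tup (iP π) (iM π m) a (iH H) 0)
  have h5 : ∀ i : Fin k, tup (iP π) (iM π m) a (iH H) i.succ = C (c i) *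
      X (Fin.natAdd (P + N) i) - rename (Fin.castAdd k) (rename (Fin.natAdd P) (p i)) := by
    intro i
    rw [tup_is, hl, map_sub, map_mul, rename_C, rename_X, iv_r, rename_rename, rename_rename]
    have h6 : (iv P ∘ Fin.castAdd k : Fin N → Fin ((P + N) + k)) =
        Fin.castAdd k ∘ Fin.natAdd P := funext fun i' => iv_l i'
    rw [h6]
  have h6 : aeval (Fin.append X fun i => C (c i)⁻¹ * rename (Fin.natAdd P) (p i))
      (tup (iP π) (iM π m) a (iH H) 0) = lin f := by
    rw [tup_i0, lin_restrict]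
    congr 1
    funext j
    rw [hf j]
  obtain ⟨Q, hQ⟩ := (hg a ha).2 θ h3 (fun i => by rw [h4, h5]) (lin f) q (lin_deg f hf0) (by
    rw [← h6]
    simp only [h5]
    exact hq) _ h2 R hR
  refine ⟨Q, ?_⟩
  rw [← hQ, map_mul, map_mul, map_mul]
  have h7 : algebraMap (Polynomial ℂ) (RatFunc ℂ) (Polynomial.X + 1) = RatFunc.X + 1 := by
    rw [map_add, map_one, RatFunc.algebraMap_X]
  rw [h7]
  ring

end Pool.Agent.Y229.PG
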