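import Pool.Agent.Y229.PG.Cmp
import Pool.Agent.W425.ND.Tw
import Pool.Agent.Y229.CF.Loc

set_option autoImplicit false

/-! Nondegenerate compositions: the weak monodromy conjecture for the global twisted topological
zeta functions. -/

namespace Pool.Agent.Y229.PG

open Pool.Agent.H628R4.TZ Pool.Agent.H628R4.TP Pool.Agent.W425.SM
  Pool.Agent.W425.SG Pool.Agent.W422.GC Pool.Agent.W425.ND
open Pool.Agent.Y229.CF (Reg)
open Pool.Agent.Y229.RE (unstab reg_unstab stab ex ex_inj emb yv sparse_ex)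
open Pool.Agent.Y229.PS (exists_factor)
open Pool.Agent.W749.JI (fam)
open Polynomial

variable {N M k r : ℕ}

/-- The twisted topological zeta function `Z^(e)` of a Newton nondegenerate polynomial on the toric
embedded resolution given by the fan `R`: the sum over the torus orbits `O_σ`, `σ ∈ R`, such that
`e` divides the multiplicities `ord ρ` of the rays `ρ` of `σ`, of the contributions of `O_σ` without
the strict transform (Euler characteristic `chiO σ - chiG v R σ`; left out for `e ≥ 2` if it does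
not lie over `{f = 0}`) and, if `e = 1`, of the strict transform in `O_σ` (`chiG v R σ`,
multiplicity `1`). For `e = 1` this is `topZetaG v R`, with the Euler characteristic of the complement
of `{f = 0}` as a constant term. -/
noncomputable def topZetaTw (v : Fin r → Fin M → ℕ) (R : SmoothFan M) (e : ℕ) : RatFunc ℂ :=
  open Classical in
  ∑ σ ∈ R.cones.filter (fun σ => ∀ ρ ∈ σ, e ∣ ordAlong v ρ),
    ((if e = 1 ∨ ∃ ρ ∈ σ, ordAlong v ρ ≠ 0 then
        RatFunc.C (((chiO σ : ℝ) - Pool.Agent.W422.GC.chiG v R σ : ℝ) : ℂ) else 0) +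
      (if e = 1 then RatFunc.C ((Pool.Agent.W422.GC.chiG v R σ : ℝ) : ℂ) * (RatFunc.X + 1)⁻¹
        else 0)) *
    ∏ ρ ∈ σ, ((ordAlong v ρ : RatFunc ℂ) * RatFunc.X + ((∑ l, ρ l : ℕ) : RatFunc ℂ))⁻¹

lemma tw_one' (v : Fin r → Fin M → ℕ) (R : SmoothFan M) : topZetaTw v R 1 = topZetaG v R := by
  classical
  unfold topZetaTw topZetaG
  rw [Finset.filter_true_of_mem fun σ _ ρ _ => one_dvd _]
  refine Finset.sum_congr rfl fun σ _ => ?_
  rw [if_pos (Or.inl rfl), if_pos rfl]

lemma tw_two' (v : Fin r → Fin M → ℕ) (R : SmoothFan M) (e : ℕ) (he : 2 ≤ e) :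
    topZetaTw v R e = Pool.Agent.W422.GC.Tw.twG v R e 1 := by
  classical
  have h1 : e ≠ 1 := by omega
  unfold topZetaTw Pool.Agent.W422.GC.Tw.twG
  rw [Finset.sum_filter, Finset.sum_filter]
  refine Finset.sum_congr rfl fun σ _ => ?_
  rw [if_neg h1, add_zero]
  have hI : Pool.Agent.W425.SM.Inc (1 : ℝ) σ := Or.inl one_pos
  by_cases h2 : ∀ ρ ∈ σ, e ∣ ordAlong v ρ
  · by_cases h3 : ∃ ρ ∈ σ, ordAlong v ρ ≠ 0
    · rw [if_pos h2, if_pos (Or.inr h3), if_pos ⟨hI, h3, h2⟩]
    · rw [if_pos h2, if_neg (fun h => h.elim h1 h3), if_neg (fun h => h3 h.2.1), zero_mul]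
  · rw [if_neg h2, if_neg (fun h => h2 h.2.2)]

/-- regularity away from the roots and their translates, for a nondegenerate polynomial -/
theorem nd_reg (hr : 1 ≤ r) (v : Fin r → Fin M → ℕ) (a : Fin r → ℂ)
    (hv : Function.Injective v) (hv0 : ∀ j, v j ≠ 0) (hnd : Nondeg v a) (R : SmoothFan M)
    (hR : Principal v R) (b : ℂ[X]) (hb : IsBFunction (sparse v a) b) (e : ℕ) (he : 1 ≤ e) (s0 : ℂ)
    (h1 : s0 ≠ -1) (hs : ∀ i : ℕ, b.eval (s0 - i) ≠ 0) : Reg s0 (topZetaTw v R e) := by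
  have : NeZero r := ⟨by omega⟩
  obtain ⟨K, θ, hθ, hV⟩ := rel_of parts False v a hv hnd b (unitEq_of_global _ _ hb)
  have hpb : (prodb b K).eval s0 ≠ 0 := by
    rw [prodb_eval]
    exact Finset.prod_ne_zero_iff.2 fun i _ => hs i
  rcases Nat.lt_or_ge e 2 with h' | h'
  · obtain rfl : e = 1 := by omega
    obtain ⟨P, hP⟩ := Pool.Agent.W425.SV.mainV_rel v hv hv0 θ hθ False R hR 1 one_ne_zero
      (fun h => h.elim) _ hV
    rw [← Pool.Agent.W422.GC.topZG_eq v θ hθ, Pool.Agent.W422.GC.topZG_one] at hP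
    rw [tw_one']
    refine ⟨_, P, ?_, hP⟩
    rw [eval_mul, eval_add, eval_X, eval_one]
    exact mul_ne_zero (fun h => h1 (eq_neg_of_add_eq_zero_left h)) hpb
  · obtain ⟨P, hP⟩ := Pool.Agent.W422.GC.Tw.main_tw v hv θ hθ False R hR e h' 1 one_ne_zero
      (fun h => h.elim) _ hV
    rw [tw_two' v R e h']
    exact ⟨_, P, hpb, hP⟩

/-- **Nondegenerate after the addition of `∑ y_i z_i`.** -/
theorem nd_global (hr : 1 ≤ r) (v : Fin r → Fin (N + (k + k)) → ℕ) (a : Fin r → ℂ)
    (hv : Function.Injective v) (hv0 : ∀ j, v j ≠ 0) (hnd : Nondeg v a)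
    (f : MvPolynomial (Fin N) ℂ) (hf : f.totalDegree ≠ 0) (hB : BecomesG f k (sparse v a))
    (b : ℂ[X]) (hb : IsBFunction f b) (R : SmoothFan (N + (k + k))) (hR : Principal v R)
    (e : ℕ) (he : 1 ≤ e) (s0 : ℂ) (hre : s0.re < 0) (hs : ∀ i : ℕ, b.eval (s0 - i) ≠ 0) :
    Reg s0 (unstab k e (topZetaTw v R e)) := by
  obtain ⟨hb1, hG⟩ := becomes_global hf hb hB
  obtain ⟨c, hc⟩ := exists_factor hb1
  have h1 : s0 ≠ -1 := by
    rintro rfl
    have h2 := hs 0
    rw [Nat.cast_zero, sub_zero] at h2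
    exact h2 hb1
  refine reg_unstab ?_ h1 ?_
  · refine nd_reg hr v a hv hv0 hnd R hR ((X + 1) * c.comp (X + C (k : ℂ))) (hG c hc) e he _ ?_
      fun i => ?_
    · intro h0
      have h2 : s0 = (k : ℂ) - 1 := by linear_combination h0
      rcases Nat.eq_zero_or_pos k with h3 | h3
      · apply h1
        rw [h2, h3]
        simp
      · have h5 : s0.re = (k : ℝ) - 1 := by rw [h2]; simp
        have h6 : (1 : ℝ) ≤ (k : ℝ) := by exact_mod_cast h3
        linarith
    · rw [eval_mul, eval_comp, eval_add, eval_add, eval_X, eval_C, eval_one]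
      refine mul_ne_zero ?_ ?_
      · intro h0
        have h2 : s0 = (k : ℂ) + i - 1 := by linear_combination h0
        rcases Nat.eq_zero_or_pos (k + i) with h3 | h3
        · have h4 : (k : ℂ) + i = 0 := by exact_mod_cast congrArg (Nat.cast : ℕ → ℂ) h3
          apply h1
          rw [h2, h4]
          ring
        · have h5 : s0.re = (k : ℝ) + i - 1 := by rw [h2]; simp
          have h6 : (1 : ℝ) ≤ (k : ℝ) + i := by exact_mod_cast h3
          linarith
      · have h7 : s0 - (k : ℂ) - (i : ℂ) + (k : ℂ) = s0 - i := by ring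
        rw [h7]
        have h8 := hs i
        rw [hc, eval_mul] at h8
        exact right_ne_zero_of_mul h8
  · rintro rfl
    rw [Complex.natCast_re] at hre
    have : (0 : ℝ) ≤ k := Nat.cast_nonneg k
    linarith

/-- **Nondegenerate compositions.** -/
theorem nd_compositions (hr : 1 ≤ r) (π : Fin r → Fin (k + 1))
    (m : Fin r → Fin (N + k) → ℕ) (hinj : ∀ j j', π j = π j' → m j = m j' → j = j')
    (hm : ∀ j, π j = 0 → m j ≠ 0) (a : Fin r → ℂ) (hnd : Nondeg (ex π m) a)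
    (θ : MvPolynomial (Fin (N + k)) ℂ ≃ₐ[ℂ] MvPolynomial (Fin (N + k)) ℂ)
    (hx : ∀ i, θ (MvPolynomial.X (Fin.castAdd k i)) = MvPolynomial.X (Fin.castAdd k i))
    (hz : ∀ i, θ (MvPolynomial.X (Fin.natAdd N i)) = fam π m a i.succ)
    (f : MvPolynomial (Fin N) ℂ) (q : Fin k → MvPolynomial (Fin (N + k)) ℂ)
    (hf : f.totalDegree ≠ 0) (hF : fam π m a 0 =
      MvPolynomial.rename (Fin.castAdd k) f + ∑ i, q i * fam π m a i.succ)
    (b : ℂ[X]) (hb : IsBFunction f b) (R : SmoothFan (N + (k + k))) (hR : Principal (ex π m) R)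
    (e : ℕ) (he : 1 ≤ e) (s0 : ℂ) (hre : s0.re < 0)
    (hs : (unstab k e (topZetaTw (ex π m) R e)).denom.eval s0 = 0) :
    ∃ i : ℕ, b.eval (s0 - i) = 0 := by
  by_contra hcon
  push Not at hcon
  refine (nd_global hr (ex π m) a (ex_inj π m hinj) (ex_ne_zero' π m hm) hnd f hf ?_ b hb R hR e
    he s0 hre hcon).denom hs
  rw [sparse_ex]
  exact becomesG_emb _ _ θ hx hz f q hF

end Pool.Agent.Y229.PG
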